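import Pool.Agent.W561.Frenet.Length

set_option autoImplicit false

namespace Pool.Agent.Results.MP_f07be6_gt.FrameLength

open Pool.Agent.W561.Frenet

/-- For every `n ≥ 4` and every nondegenerate closed curve `γ` in `ℝⁿ` the length of the Frenet
frame of `γ` is larger than `2π μ(n)`. -/
theorem result : ∀ n : ℕ, 4 ≤ n → ∀ γ : ℝ → EuclideanSpace ℝ (Fin n), IsNondegenerate n γ →
    2 * Real.pi * (mu n : ℝ) < frameLength n γ := by
  intro n hn γ hγ
  rw [mu_eq_one hn, Nat.cast_one, mul_one]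
  obtain ⟨m, rfl⟩ : ∃ m, n = m + 3 := ⟨n - 3, by omega⟩
  exact frameLength_gt hγ

end Pool.Agent.Results.MP_f07be6_gt.FrameLength
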