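import Pool.Agent.W561.Frenet.Perturb

set_option autoImplicit false

namespace Pool.Agent.Results.MP_f07be6_gt.MuIsOne

open Pool.Agent.W561.Frenet

/-- `μ(n) = 1` for every `n ≥ 4`: already the circle traversed once has nondegenerate closed
curves of `ℝⁿ` in each of its `C^∞` neighbourhoods. -/
theorem result : ∀ n : ℕ, 4 ≤ n → IsLeast {m : ℕ | 1 ≤ m ∧ IsPerturbable n m} 1 :=
  fun _ hn => isLeast_one hn

end Pool.Agent.Results.MP_f07be6_gt.MuIsOne
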